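import Mathlib

/-! Real-variable part of Lemma L (multiplicativity of the hyperdeterminant form, every `d`). -/

namespace Pool.Agent.Helper66.LC


/-- The polynomial inequality in `q`. -/
theorem poly_q (d q : ℝ) (hd : 2 ≤ d) (hq0 : 0 < q) (hq1 : q < 1) :
    0 < (5 * d - 2 - (d - 2) * q) *
          (d * ((d - 1) * d ^ 2 * (1 - q) ^ 2 + q * (3 * d - 2 - (d - 2) * q) ^ 2)) +
        (d ^ 3 * (1 - q) - (3 * d - 2 - (d - 2) * q) ^ 2) * (d ^ 2 * (1 + q) ^ 2) +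
        (d - 2) * q * (1 - q) * ((5 * d - 2 - (d - 2) * q) *
          (d ^ 3 * (1 - q) - (3 * d - 2 - (d - 2) * q) ^ 2)) := by
  obtain ⟨k, rfl⟩ : ∃ k, d = 2 + k := ⟨d - 2, by ring⟩
  obtain ⟨m, rfl⟩ : ∃ m, q = 1 / (1 + m) := ⟨1 / q - 1, by field_simp; ring⟩
  have hk : 0 ≤ k := by linarith
  have hm1 : 0 < 1 + m := by
    by_contra h
    push Not at h
    exact absurd (div_nonpos_of_nonneg_of_nonpos zero_le_one h) (not_le.2 hq0)
  have hm : 0 < m := by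
    rw [div_lt_one hm1] at hq1
    linarith
  have key : ((5 * (2 + k) - 2 - (2 + k - 2) * (1 / (1 + m))) *
          ((2 + k) * (((2 + k) - 1) * (2 + k) ^ 2 * (1 - (1 / (1 + m))) ^ 2 +
            (1 / (1 + m)) * (3 * (2 + k) - 2 - ((2 + k) - 2) * (1 / (1 + m))) ^ 2)) +
        ((2 + k) ^ 3 * (1 - (1 / (1 + m))) -
          (3 * (2 + k) - 2 - ((2 + k) - 2) * (1 / (1 + m))) ^ 2) *
            ((2 + k) ^ 2 * (1 + (1 / (1 + m))) ^ 2) +
        ((2 + k) - 2) * (1 / (1 + m)) * (1 - (1 / (1 + m))) *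
          ((5 * (2 + k) - 2 - ((2 + k) - 2) * (1 / (1 + m))) *
          ((2 + k) ^ 3 * (1 - (1 / (1 + m))) -
            (3 * (2 + k) - 2 - ((2 + k) - 2) * (1 / (1 + m))) ^ 2))) =
      (128 * m + 384 * m ^ 2 + 416 * m ^ 3 + 192 * m ^ 4 + 32 * m ^ 5 +
      224 * k * m + 800 * k * m ^ 2 + 1048 * k * m ^ 3 + 592 * k * m ^ 4 + 120 * k * m ^ 5 +
      176 * k ^ 2 * m + 720 * k ^ 2 * m ^ 2 + 1100 * k ^ 2 * m ^ 3 + 732 * k ^ 2 * m ^ 4 +
        176 * k ^ 2 * m ^ 5 +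
      88 * k ^ 3 * m + 392 * k ^ 3 * m ^ 2 + 648 * k ^ 3 * m ^ 3 + 470 * k ^ 3 * m ^ 4 +
        126 * k ^ 3 * m ^ 5 +
      28 * k ^ 4 * m + 132 * k ^ 4 * m ^ 2 + 224 * k ^ 4 * m ^ 3 + 163 * k ^ 4 * m ^ 4 +
        44 * k ^ 4 * m ^ 5 +
      4 * k ^ 5 * m + 20 * k ^ 5 * m ^ 2 + 35 * k ^ 5 * m ^ 3 + 25 * k ^ 5 * m ^ 4 +
        6 * k ^ 5 * m ^ 5) / (1 + m) ^ 5 := by
    field_simp
    ring
  rw [key]
  positivity

/-- The numerical inequality behind Lemma L. -/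
theorem num_key (n : ℕ) (q Z2 : ℝ) (hq0 : 0 ≤ q) (hq1 : q < 1)
    (hZ : Z2 = q * (3 * ((n : ℝ) + 2) - 2 - n * q) ^ 2 / (((n : ℝ) + 2) ^ 2 * (1 - q) ^ 2)) :
    ((1 + q) / (1 - q)) ^ 2 ≤
      (Z2 + 1) * ((Z2 + (n + 2)) * ((n + 1) + q) / ((n + 2) * ((n + 1) + Z2))) ^ n ∧
    (0 < q → 0 < n → ((1 + q) / (1 - q)) ^ 2 <
      (Z2 + 1) * ((Z2 + (n + 2)) * ((n + 1) + q) / ((n + 2) * ((n + 1) + Z2))) ^ n) := by
  set d : ℝ := (n : ℝ) + 2 with hd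
  have hn0 : (0 : ℝ) ≤ n := Nat.cast_nonneg n
  have hd2 : (2 : ℝ) ≤ d := by rw [hd]; linarith
  have hn : (n : ℝ) = d - 2 := by rw [hd]; ring
  have hn1 : (n : ℝ) + 1 = d - 1 := by rw [hd]; ring
  rw [hn1]
  have h1q : 0 < 1 - q := by linarith
  have hZ0 : 0 ≤ Z2 := by rw [hZ]; positivity
  -- the two quotients
  set a : ℝ := 5 * d - 2 - (d - 2) * q with ha
  set b : ℝ := d ^ 3 * (1 - q) - (3 * d - 2 - (d - 2) * q) ^ 2 with hb
  set D1 : ℝ := d ^ 2 * (1 + q) ^ 2 with hD1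
  set D2 : ℝ := d * ((d - 1) * d ^ 2 * (1 - q) ^ 2 + q * (3 * d - 2 - (d - 2) * q) ^ 2) with hD2
  have hD1p : 0 < D1 := by positivity
  have hd1 : 0 < d - 1 := by linarith
  have hD2p : 0 < D2 := by
    have : 0 < (d - 1) * d ^ 2 * (1 - q) ^ 2 := by positivity
    have h2 : 0 ≤ q * (3 * d - 2 - (d - 2) * q) ^ 2 := by positivity
    have h3 : 0 < d := by linarith
    rw [hD2]; positivity
  set x : ℝ := (d - 2) * q * (1 - q) * a / D1 with hx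
  set y : ℝ := q * (1 - q) * b / D2 with hy
  have hapos : 0 < a := by
    have : (d - 2) * q ≤ (d - 2) * 1 := by
      apply mul_le_mul_of_nonneg_left hq1.le; linarith
    rw [ha]; nlinarith
  have hx0 : 0 ≤ x := by
    have : 0 ≤ d - 2 := by linarith
    rw [hx]; positivity
  have e1 : Z2 + 1 = (1 + x) * ((1 + q) / (1 - q)) ^ 2 := by
    rw [hZ, hn, hx, ha, hD1]
    have : 0 < d := by linarith
    have h5 : 0 < 1 + q := by linarith
    field_simp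
    ring
  have hden : 0 < d * ((d - 1) + Z2) := by
    have : 0 < d := by linarith
    positivity
  have e2 : (Z2 + d) * ((d - 1) + q) / (d * ((d - 1) + Z2)) = 1 + y := by
    have h3 : (Z2 + d) * ((d - 1) + q) / (d * ((d - 1) + Z2)) =
        1 + (d * q - Z2 * (1 - q)) / (d * ((d - 1) + Z2)) := by
      field_simp
      ring
    rw [h3, hy]
    congr 1
    rw [div_eq_div_iff hden.ne' hD2p.ne', hD2, hb, hZ, hn]
    have : 0 < d := by linarith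
    field_simp
  have hB0 : 0 < (Z2 + d) * ((d - 1) + q) / (d * ((d - 1) + Z2)) := by
    have : 0 < d := by linarith
    positivity
  have hyn : -1 < y := by
    have := hB0
    rw [e2] at this
    linarith
  have hbern : 1 + (d - 2) * y ≤ (1 + y) ^ n := by
    have := one_add_mul_le_pow (a := y) (by linarith : (-2 : ℝ) ≤ y) n
    rw [hn] at this
    exact this
  have e3 : (1 + x) * (1 + (d - 2) * y) = 1 + (d - 2) * q * (1 - q) / (D1 * D2) *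
      (a * D2 + b * D1 + (d - 2) * q * (1 - q) * (a * b)) := by
    rw [hx, hy]
    field_simp
    ring
  rw [e1, e2]
  have hE : 0 < ((1 + q) / (1 - q)) ^ 2 := by
    have h5 : 0 < 1 + q := by linarith
    positivity
  have hmain : 1 ≤ (1 + x) * (1 + (d - 2) * y) := by
    rw [e3]
    rcases hq0.eq_or_lt with h0 | h0
    · rw [← h0]; simp
    · have := poly_q d q hd2 h0 hq1
      have h6 : 0 ≤ d - 2 := by linarith
      have : 0 ≤ (d - 2) * q * (1 - q) / (D1 * D2) *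
        (a * D2 + b * D1 + (d - 2) * q * (1 - q) * (a * b)) := by
        apply mul_nonneg
        · positivity
        · exact this.le
      linarith
  constructor
  · calc ((1 + q) / (1 - q)) ^ 2 = 1 * ((1 + q) / (1 - q)) ^ 2 := by ring
      _ ≤ ((1 + x) * (1 + (d - 2) * y)) * ((1 + q) / (1 - q)) ^ 2 := by
          apply mul_le_mul_of_nonneg_right hmain hE.le
      _ ≤ ((1 + x) * (1 + y) ^ n) * ((1 + q) / (1 - q)) ^ 2 := by
          apply mul_le_mul_of_nonneg_right _ hE.le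
          apply mul_le_mul_of_nonneg_left hbern
          linarith
      _ = (1 + x) * ((1 + q) / (1 - q)) ^ 2 * (1 + y) ^ n := by ring
  · intro hq hnp
    have hmain' : 1 < (1 + x) * (1 + (d - 2) * y) := by
      rw [e3]
      have := poly_q d q hd2 hq hq1
      have h6 : 0 < d - 2 := by
        rw [← hn]; exact_mod_cast hnp
      have : 0 < (d - 2) * q * (1 - q) / (D1 * D2) *
        (a * D2 + b * D1 + (d - 2) * q * (1 - q) * (a * b)) := by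
        apply mul_pos
        · positivity
        · exact this
      linarith
    calc ((1 + q) / (1 - q)) ^ 2 = 1 * ((1 + q) / (1 - q)) ^ 2 := by ring
      _ < ((1 + x) * (1 + (d - 2) * y)) * ((1 + q) / (1 - q)) ^ 2 := by
          apply mul_lt_mul_of_pos_right hmain' hE
      _ ≤ ((1 + x) * (1 + y) ^ n) * ((1 + q) / (1 - q)) ^ 2 := by
          apply mul_le_mul_of_nonneg_right _ hE.le
          apply mul_le_mul_of_nonneg_left hbern
          linarith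
      _ = (1 + x) * ((1 + q) / (1 - q)) ^ 2 * (1 + y) ^ n := by ring

/-- Existence of the parameter `p`. -/
theorem exists_p (n : ℕ) (Z : ℝ) (hZ : 0 ≤ Z) :
    ∃ p : ℝ, 0 ≤ p ∧ p < 1 ∧
      Z * (((n : ℝ) + 2) * (1 - p ^ 2)) = p * (3 * ((n : ℝ) + 2) - 2 - n * p ^ 2) := by
  have hcont : ContinuousOn (fun p : ℝ => p * (3 * ((n : ℝ) + 2) - 2 - n * p ^ 2) -
      Z * (((n : ℝ) + 2) * (1 - p ^ 2))) (Set.Icc 0 1) := by fun_prop
  have hn0 : (0 : ℝ) ≤ n := Nat.cast_nonneg n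
  have h0 : (fun p : ℝ => p * (3 * ((n : ℝ) + 2) - 2 - n * p ^ 2) -
      Z * (((n : ℝ) + 2) * (1 - p ^ 2))) 0 ≤ 0 := by
    simp only
    have : 0 ≤ Z * ((n : ℝ) + 2) := by positivity
    nlinarith
  have h1 : 0 ≤ (fun p : ℝ => p * (3 * ((n : ℝ) + 2) - 2 - n * p ^ 2) -
      Z * (((n : ℝ) + 2) * (1 - p ^ 2))) 1 := by
    simp only
    nlinarith
  obtain ⟨p, ⟨hp0, hp1⟩, hp⟩ := intermediate_value_Icc (zero_le_one' ℝ) hcont ⟨h0, h1⟩
  simp only at hp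
  refine ⟨p, hp0, lt_of_le_of_ne hp1 ?_, by linarith⟩
  rintro rfl
  nlinarith

set_option maxHeartbeats 1000000 in
/-- The one-variable estimate used in Lemma L, in the form in which it is applied:
`r = 1 / sqrt (n+1)`, `d = n + 2`, `z >= 0`; there is `T` with `0 <= T < r`, `T <= z` and for
every `η` in `[0,1]` the Schwarz-Pick bound squared is at most `P1 * P2^n`
(strictly, if `n > 0` and `z > 0`). -/
theorem num_main (n : ℕ) (z r : ℝ) (hz : 0 ≤ z) (hr : 0 < r) (hr2 : r ^ 2 * (n + 1) = 1) :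
    ∃ T : ℝ, 0 ≤ T ∧ T < r ∧ T ≤ z ∧ ∀ η : ℝ, 0 ≤ η → η ≤ 1 →
      ((((z - T) * η / (1 + T ^ 2) ^ (n + 2) +
          (1 - η ^ 2) * r / ((r ^ 2 - T ^ 2) * ((n + 2) * (1 + T ^ 2) ^ (n + 1)))) ^ 2 *
          ((1 + T ^ 2) * (1 + z ^ 2) * (1 + r ^ 2)) ^ (n + 2) ≤
        (1 + z ^ 2) ^ 2 * ((z ^ 2 + 1 / (n + 1)) * (z ^ 2 + (n + 2) / (n + 1)) ^ n)) ∧
      (0 < n → 0 < z → ((z - T) * η / (1 + T ^ 2) ^ (n + 2) +
          (1 - η ^ 2) * r / ((r ^ 2 - T ^ 2) * ((n + 2) * (1 + T ^ 2) ^ (n + 1)))) ^ 2 *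
          ((1 + T ^ 2) * (1 + z ^ 2) * (1 + r ^ 2)) ^ (n + 2) <
        (1 + z ^ 2) ^ 2 * ((z ^ 2 + 1 / (n + 1)) * (z ^ 2 + (n + 2) / (n + 1)) ^ n))) := by
  have hn0 : (0 : ℝ) ≤ n := Nat.cast_nonneg n
  have hd0 : (0 : ℝ) < (n : ℝ) + 2 := by positivity
  have hn1 : (0 : ℝ) < (n : ℝ) + 1 := by positivity
  obtain ⟨p, hp0, hp1, hp⟩ := exists_p n (z / r) (by positivity)
  set Z : ℝ := z / r with hZ
  have hzZ : z = Z * r := by rw [hZ]; field_simp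
  have hZ0 : 0 ≤ Z := by rw [hZ]; positivity
  have hp2 : p ^ 2 < 1 := by nlinarith
  have h1p : 0 < 1 - p ^ 2 := by linarith
  have hinv : (n : ℝ) + 1 = 1 / r ^ 2 := by
    field_simp
    linarith
  have hnr : (n : ℝ) = 1 / r ^ 2 - 1 := by linarith
  -- `Z - p`
  have hZp : (Z - p) * (((n : ℝ) + 2) * (1 - p ^ 2)) = 2 * p * ((n + 1) + p ^ 2) := by
    have : (Z - p) * (((n : ℝ) + 2) * (1 - p ^ 2)) =
      Z * (((n : ℝ) + 2) * (1 - p ^ 2)) - p * (((n : ℝ) + 2) * (1 - p ^ 2)) := by ring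
    rw [this, hp]
    ring
  have hZp0 : p ≤ Z := by
    by_contra h
    push Not at h
    have h2 : (Z - p) * (((n : ℝ) + 2) * (1 - p ^ 2)) < 0 :=
      mul_neg_of_neg_of_pos (by linarith) (by positivity)
    rw [hZp] at h2
    have : 0 ≤ 2 * p * (((n : ℝ) + 1) + p ^ 2) := by positivity
    linarith
  refine ⟨p * r, by positivity, by nlinarith, ?_, ?_⟩
  · rw [hzZ]; exact mul_le_mul_of_nonneg_right hZp0 hr.le
  intro η h0 h1
  set T : ℝ := p * r with hT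
  have hT1 : 0 < 1 + T ^ 2 := by positivity
  have hz1 : 0 < 1 + z ^ 2 := by positivity
  set A : ℝ := 1 / (r * ((n + 2) * (1 - p ^ 2))) with hA
  have hApos : 0 < A := by rw [hA]; positivity
  have hrT : r ^ 2 - T ^ 2 = r ^ 2 * (1 - p ^ 2) := by rw [hT]; ring
  -- the first coefficient
  have hB : (z - T) / (1 + T ^ 2) = 2 * p * A := by
    have hZp' : Z - p = 2 * p * ((n + 1) + p ^ 2) / (((n : ℝ) + 2) * (1 - p ^ 2)) := by
      rw [eq_div_iff (by positivity)]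
      exact hZp
    have h5 : z - T = r * (Z - p) := by rw [hzZ, hT]; ring
    have h6 : ((n : ℝ) + 1) + p ^ 2 = (1 + T ^ 2) / r ^ 2 := by
      rw [hinv, hT]; field_simp
    rw [h5, hZp', h6, hA]
    field_simp
  set X : ℝ := (z - T) * η / (1 + T ^ 2) ^ (n + 2) +
          (1 - η ^ 2) * r / ((r ^ 2 - T ^ 2) * ((n + 2) * (1 + T ^ 2) ^ (n + 1))) with hX
  have hXe : X = A * (2 * p * η + (1 - η ^ 2)) / (1 + T ^ 2) ^ (n + 1) := by
    have h7 : (z - T) * η / (1 + T ^ 2) ^ (n + 2) =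
        ((z - T) / (1 + T ^ 2)) * η / (1 + T ^ 2) ^ (n + 1) := by
      rw [pow_succ]
      field_simp
    have h8 : (1 - η ^ 2) * r / ((r ^ 2 - T ^ 2) * ((n + 2) * (1 + T ^ 2) ^ (n + 1))) =
        A * (1 - η ^ 2) / (1 + T ^ 2) ^ (n + 1) := by
      rw [hrT, hA]
      field_simp
    rw [hX, h7, h8, hB]
    ring
  have hη2 : 0 ≤ 1 - η ^ 2 := by nlinarith
  have hX0 : 0 ≤ X := by rw [hXe]; positivity
  have hXE : X ≤ A * (1 + p ^ 2) / (1 + T ^ 2) ^ (n + 1) := by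
    rw [hXe]
    apply div_le_div_of_nonneg_right _ (by positivity)
    apply mul_le_mul_of_nonneg_left _ hApos.le
    nlinarith [sq_nonneg (p - η)]
  have hXE2 : X ^ 2 ≤ (A * (1 + p ^ 2) / (1 + T ^ 2) ^ (n + 1)) ^ 2 :=
    pow_le_pow_left₀ hX0 hXE 2
  set C : ℝ := (1 + p ^ 2) / (1 - p ^ 2) with hC
  have hAC : A * (1 + p ^ 2) = C / (r * (n + 2)) := by
    rw [hA, hC]; field_simp
  have hr1 : 1 + r ^ 2 = (n + 2) * r ^ 2 := by linear_combination (-1 : ℝ) * hr2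
  set W : ℝ := (1 + T ^ 2) * (1 + z ^ 2) * (1 + r ^ 2) with hW
  set Q : ℝ := (1 + z ^ 2) * ((n + 2) * r ^ 2) / (1 + T ^ 2) with hQ
  have hQ0 : 0 < Q := by rw [hQ]; positivity
  have hstep : (A * (1 + p ^ 2) / (1 + T ^ 2) ^ (n + 1)) ^ 2 * W ^ (n + 2) =
      C ^ 2 * ((1 + z ^ 2) ^ 2 * r ^ 2 * Q ^ n) := by
    rw [hAC, hW, hQ, hr1]
    have e1 : ((1 + T ^ 2) * (1 + z ^ 2) * (((n : ℝ) + 2) * r ^ 2)) ^ (n + 2) =
        (1 + T ^ 2) ^ (n + 2) * ((1 + z ^ 2) * (((n : ℝ) + 2) * r ^ 2)) ^ (n + 2) := by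
      rw [← mul_pow]; ring
    rw [e1, div_pow, div_pow, div_pow, ← pow_mul]
    have e2 : (n + 1) * 2 = n + (n + 2) := by ring
    rw [e2, pow_add (1 + T ^ 2) n (n + 2), pow_add ((1 + z ^ 2) * (((n : ℝ) + 2) * r ^ 2)) n 2,
      div_pow ((1 + z ^ 2) * (((n : ℝ) + 2) * r ^ 2)) (1 + T ^ 2) n]
    field_simp
  have hP1 : z ^ 2 + 1 / ((n : ℝ) + 1) = r ^ 2 * (Z ^ 2 + 1) := by
    rw [hinv, hzZ]; field_simp
  have hP2 : z ^ 2 + ((n : ℝ) + 2) / (n + 1) = r ^ 2 * (Z ^ 2 + (n + 2)) := by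
    rw [hinv, hzZ]; field_simp
  have hratio : (Z ^ 2 + (n + 2)) * (((n : ℝ) + 1) + p ^ 2) / ((n + 2) * ((n + 1) + Z ^ 2)) * Q =
      r ^ 2 * (Z ^ 2 + (n + 2)) := by
    have h6 : ((n : ℝ) + 1) + p ^ 2 = (1 + T ^ 2) / r ^ 2 := by
      rw [hinv, hT]; field_simp
    have h7 : ((n : ℝ) + 1) + Z ^ 2 = (1 + z ^ 2) / r ^ 2 := by
      rw [hinv, hzZ]; field_simp
    rw [h6, h7, hQ]
    field_simp
  have hZ2 : Z ^ 2 = p ^ 2 * (3 * ((n : ℝ) + 2) - 2 - n * p ^ 2) ^ 2 /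
      (((n : ℝ) + 2) ^ 2 * (1 - p ^ 2) ^ 2) := by
    rw [eq_div_iff (by positivity)]
    calc Z ^ 2 * (((n : ℝ) + 2) ^ 2 * (1 - p ^ 2) ^ 2)
        = (Z * (((n : ℝ) + 2) * (1 - p ^ 2))) ^ 2 := by ring
      _ = _ := by rw [hp]; ring
  obtain ⟨k1, k2⟩ := num_key n (p ^ 2) (Z ^ 2) (by positivity) hp2 hZ2
  rw [← hC] at k1 k2
  set G : ℝ := (Z ^ 2 + (n + 2)) * (((n : ℝ) + 1) + p ^ 2) / ((n + 2) * ((n + 1) + Z ^ 2)) with hG
  have hfin : (Z ^ 2 + 1) * G ^ n * ((1 + z ^ 2) ^ 2 * r ^ 2 * Q ^ n) =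
      (1 + z ^ 2) ^ 2 * ((z ^ 2 + 1 / (n + 1)) * (z ^ 2 + (n + 2) / (n + 1)) ^ n) := by
    rw [hP1, hP2, ← hratio, mul_pow]
    ring
  have hpos : 0 < (1 + z ^ 2) ^ 2 * r ^ 2 * Q ^ n := by positivity
  have hWn : 0 ≤ W ^ (n + 2) := by positivity
  constructor
  · calc X ^ 2 * W ^ (n + 2) ≤ (A * (1 + p ^ 2) / (1 + T ^ 2) ^ (n + 1)) ^ 2 * W ^ (n + 2) :=
          mul_le_mul_of_nonneg_right hXE2 hWn
      _ = C ^ 2 * ((1 + z ^ 2) ^ 2 * r ^ 2 * Q ^ n) := hstep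
      _ ≤ (Z ^ 2 + 1) * G ^ n * ((1 + z ^ 2) ^ 2 * r ^ 2 * Q ^ n) :=
          mul_le_mul_of_nonneg_right k1 hpos.le
      _ = _ := hfin
  · intro hn hzp
    have hpp : 0 < p ^ 2 := by
      rcases hp0.eq_or_lt with h | h
      · exfalso
        rw [← h] at hp
        have : 0 < Z := by rw [hZ]; positivity
        have h9 : 0 < Z * (((n : ℝ) + 2) * (1 - (0 : ℝ) ^ 2)) := by positivity
        rw [hp] at h9
        simp at h9
      · positivity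
    calc X ^ 2 * W ^ (n + 2) ≤ (A * (1 + p ^ 2) / (1 + T ^ 2) ^ (n + 1)) ^ 2 * W ^ (n + 2) :=
          mul_le_mul_of_nonneg_right hXE2 hWn
      _ = C ^ 2 * ((1 + z ^ 2) ^ 2 * r ^ 2 * Q ^ n) := hstep
      _ < (Z ^ 2 + 1) * G ^ n * ((1 + z ^ 2) ^ 2 * r ^ 2 * Q ^ n) :=
          mul_lt_mul_of_pos_right (k2 hpp hn) hpos
      _ = _ := hfin

end Pool.Agent.Helper66.LC
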